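import Pool.Agent.Y462.GE.Stm
import Pool.Agent.Y110.FJ.Crit
import Pool.Agent.Y812.SS.Wr

/-!
# Triangular matrices are in the class (job GE-BO, project GE of helper462)
-/

set_option autoImplicit false

namespace Pool.Agent.Y67.GE

open Pool.Agent.Y462.GE
open Pool.Agent.Y462.SS (Closed)

theorem mt_inj {k : Type} [Field k] {g h : Bo k k} (e : mt k k g = mt k k h) : g = h := by
  have h1 : ((mt k k g : U2 k) : Matrix (Fin 2) (Fin 2) k) = (mt k k h : U2 k) :=
    congrArg Units.val e
  have h00 : (g.a : k) = h.a := congrFun (congrFun h1 0) 0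
  have h01 : g.v = h.v := congrFun (congrFun h1 0) 1
  have h11 : (g.d : k) = h.d := congrFun (congrFun h1 1) 1
  exact Bo.ext (Units.ext h00) (Units.ext h11) h01

section

variable {k R : Type} [Field k] [Ring R] [Algebra k R]

/-- the matrices with `v` in `V` -/
def HV (V : Submodule k R) : Subgroup (Bo k R) where
  carrier := {g | g.v ∈ V}
  mul_mem' := fun {_ _} hg hh => V.add_mem (V.smul_mem _ hh) (V.smul_mem _ hg)
  one_mem' := V.zero_mem
  inv_mem' := fun {_} hg => V.neg_mem (V.smul_mem _ (V.smul_mem _ hg))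

/-- a coordinate -/
def ph (V : Submodule k R) (l : V →ₗ[k] k) : HV V →* Bo k k where
  toFun g := ⟨g.1.a, g.1.d, l ⟨g.1.v, g.2⟩⟩
  map_one' := Bo.ext rfl rfl l.map_zero
  map_mul' g h := by
    refine Bo.ext rfl rfl ?_
    change l ⟨(g.1.a : k) • h.1.v + (h.1.d : k) • g.1.v, _⟩ =
      (g.1.a : k) • l ⟨h.1.v, h.2⟩ + (h.1.d : k) • l ⟨g.1.v, g.2⟩
    rw [← l.map_smul, ← l.map_smul, ← l.map_add]
    rfl

theorem HV_mem {C : ∀ (G : Type) [Group G], Prop} (hC : Closed C) (hU : C (U2 k))
    (V : Submodule k R) [Module.Finite k V] : C (HV V) := by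
  let b := Module.finBasis k V
  let L : Option (Fin (Module.finrank k V)) → (V →ₗ[k] k) := fun i =>
    match i with
    | none => 0
    | some i => b.coord i
  refine hC.of_injective (HV V) (Option (Fin (Module.finrank k V)) → U2 k)
    (MonoidHom.pi fun i => (mt k k).comp (ph V (L i))) ?_
    (Pool.Agent.Y812.SS.C_pow hC (Option (Fin (Module.finrank k V))) (U2 k) hU)
  intro g h e
  have h1 : ∀ i, ph V (L i) g = ph V (L i) h := fun i => mt_inj (congrFun e i)
  have h2 : (⟨g.1.v, g.2⟩ : V) = ⟨h.1.v, h.2⟩ := by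
    refine b.ext_elem fun i => ?_
    exact congrArg Bo.v (h1 (some i))
  have h3 : (ph V (L none) g).a = (ph V (L none) h).a := by rw [h1 none]
  have h4 : (ph V (L none) g).d = (ph V (L none) h).d := by rw [h1 none]
  refine Subtype.ext (Bo.ext ?_ ?_ ?_)
  · exact h3
  · exact h4
  · exact congrArg Subtype.val h2

end

theorem t_bo : S_BO := by
  classical
  intro C hC k R _ _ _ hU
  refine Pool.Agent.Y110.FJ.c_of_fg hC (Bo k R) fun E => ?_
  obtain ⟨V, hV⟩ : ∃ V : Submodule k R,
      V = Submodule.span k ((fun g : Bo k R => g.v) '' (E : Set (Bo k R))) := ⟨_, rfl⟩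
  have hfin : Module.Finite k V := by
    rw [hV]
    exact Module.Finite.span_of_finite k (E.finite_toSet.image _)
  have hEH : Subgroup.closure (E : Set (Bo k R)) ≤ HV V := by
    rw [Subgroup.closure_le]
    intro g hg
    change g.v ∈ V
    rw [hV]
    exact Submodule.subset_span ⟨g, hg, rfl⟩
  exact hC.of_injective _ _ (Subgroup.inclusion hEH) (Subgroup.inclusion_injective hEH)
    (HV_mem hC hU V)

end Pool.Agent.Y67.GE
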